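import Pool.Agent.helper65.T1.SpecN

set_option autoImplicit false

open MeasureTheory

namespace Pool.Agent.T1

noncomputable section

open Classical in
/-- the quadruples with given first pair -/
def QDC_S (N : ℕ) (U : Finset ℤ) (X T H : ℝ) (k1 k2 : ℤ) : Finset (ℤ × ℤ) :=
  {x ∈ U ×ˢ U | |(Nsx N X k1 + Nsx N X k2) - (Nsx N X x.1 + Nsx N X x.2)| ≤ 1 / T ∧
    |(Nsx N X k1 ^ 2 + Nsx N X k2 ^ 2) - (Nsx N X x.1 ^ 2 + Nsx N X x.2 ^ 2)| ≤ 1 / H}

theorem QDC_card (N : ℕ) (U : Finset ℤ) (X T H : ℝ) :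
    ((NQ N U X T H).card : ℝ) = ∑ k1 ∈ U, ∑ k2 ∈ U, ((QDC_S N U X T H k1 k2).card : ℝ) := by
  classical
  have h1 : (NQ N U X T H).card = ∑ k1 ∈ U, ∑ k2 ∈ U, (QDC_S N U X T H k1 k2).card := by
    unfold NQ
    rw [Finset.card_filter, Finset.sum_product, Finset.sum_product]
    refine Finset.sum_congr rfl fun k1 _ => Finset.sum_congr rfl fun k2 _ => ?_
    unfold QDC_S
    rw [Finset.card_filter]
  rw [h1]
  push_cast
  rfl

theorem QDC_harm (N : ℕ) (hN : 1 ≤ N) (U : Finset ℤ) (hU : ∀ k ∈ U, |k| ≤ 2 * N) (k1 : ℤ) (hk1 : |k1| ≤ 2 * N) :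
    ∑ k2 ∈ U.erase k1, 1 / |(k1 : ℝ) - k2| ≤ 2 * (1 + Real.log (4 * N)) := by
  classical
  have hmap : ∀ k2 ∈ U.erase k1, (k1 - k2).natAbs ∈ Finset.Icc 1 (4 * N) := by
    intro k2 hk2
    obtain ⟨hne, hk⟩ := Finset.mem_erase.1 hk2
    have h1 := abs_le.1 (hU k2 hk)
    have h2 := abs_le.1 hk1
    rw [Finset.mem_Icc]
    have h3 : k1 - k2 ≠ 0 := sub_ne_zero.2 (Ne.symm hne)
    omega
  rw [← Finset.sum_fiberwise_of_maps_to hmap]
  have h1 : ∀ m ∈ Finset.Icc 1 (4 * N), ∑ k2 ∈ (U.erase k1).filter (fun k2 => (k1 - k2).natAbs = m), 1 / |(k1 : ℝ) - k2| ≤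
      2 * (m : ℝ)⁻¹ := by
    intro m hm
    have hm1 := (Finset.mem_Icc.1 hm).1
    have h2 : ∀ k2 ∈ (U.erase k1).filter (fun k2 => (k1 - k2).natAbs = m), 1 / |(k1 : ℝ) - k2| = (m : ℝ)⁻¹ := by
      intro k2 hk2
      have h3 := (Finset.mem_filter.1 hk2).2
      have h4 : |(k1 : ℝ) - k2| = m := by
        rw [← h3, Nat.cast_natAbs, Int.cast_abs]
        push_cast
        rfl
      rw [h4, one_div]
    rw [Finset.sum_congr rfl h2, Finset.sum_const, nsmul_eq_mul]
    refine mul_le_mul_of_nonneg_right ?_ (by positivity)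
    have h5 : (U.erase k1).filter (fun k2 => (k1 - k2).natAbs = m) ⊆ {k1 - m, k1 + m} := by
      intro k2 hk2
      have h3 := (Finset.mem_filter.1 hk2).2
      rw [Finset.mem_insert, Finset.mem_singleton]
      omega
    have h6 : ((U.erase k1).filter (fun k2 => (k1 - k2).natAbs = m)).card ≤ 2 :=
      (Finset.card_le_card h5).trans Finset.card_le_two
    exact_mod_cast h6
  refine (Finset.sum_le_sum h1).trans ?_
  rw [← Finset.mul_sum]
  refine mul_le_mul_of_nonneg_left ?_ (by norm_num)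
  have h7 := harmonic_le_one_add_log (4 * N)
  rw [harmonic_eq_sum_Icc] at h7
  push_cast at h7
  exact h7

theorem QDC_proof (hNQ2 : NQ2_stmt) : QDC_stmt := by
  classical
  refine ⟨188460, by norm_num, ?_⟩
  intro N U X T H hN hU hX hH hHT hTN
  have hNr : (1 : ℝ) ≤ N := by exact_mod_cast hN
  have hH0 : 0 < H := by linarith
  have hT0 : 0 < T := by linarith
  have hN0 : (0 : ℝ) < N := by linarith
  have hs0 : 0 < Real.sqrt H := Real.sqrt_pos.2 hH0
  rw [QDC_card]
  set q : ℝ := (N : ℝ) ^ 2 / H with hq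
  have hq0 : 0 < q := by positivity
  set l : ℝ := 1 + Real.log N with hl
  have hl1 : 1 ≤ l := by
    have := Real.log_nonneg hNr
    linarith
  have hcU : (U.card : ℝ) ≤ 5 * N := by
    have h1 : U ⊆ Finset.Icc (-(2 * N : ℤ)) (2 * N) := by
      intro k hk
      have := abs_le.1 (hU k hk)
      rw [Finset.mem_Icc]
      exact this
    have h2 := Finset.card_le_card h1
    rw [Int.card_Icc] at h2
    have h3 : (2 * (N : ℤ) + 1 - -(2 * N)).toNat = 4 * N + 1 := by omega
    rw [h3] at h2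
    have h4 : U.card ≤ 5 * N := by omega
    exact_mod_cast h4
  have hlog : 1 + Real.log (4 * N) ≤ 3 * l := by
    rw [Real.log_mul (by norm_num) (by positivity)]
    have h4 : Real.log 4 ≤ 2 := by
      have h5 : (4 : ℝ) = 2 ^ 2 := by norm_num
      rw [h5, Real.log_pow]
      have := Real.log_two_lt_d9
      push_cast
      linarith
    have := Real.log_nonneg hNr
    rw [hl]
    linarith
  have hNT : (N : ℝ) / T ≤ N / H := div_le_div_of_nonneg_left hN0.le hH0 hHT
  have hsH : Real.sqrt H ≤ 4 * N := by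
    rw [Real.sqrt_le_left (by positivity)]
    nlinarith
  -- the bound for a fixed k1
  have key : ∀ k1 ∈ U, ∑ k2 ∈ U, ((QDC_S N U X T H k1 k2).card : ℝ) ≤ 188460 * (N / T) * q * l := by
    intro k1 hk1
    rw [← Finset.add_sum_erase U _ hk1]
    have b1 : ((QDC_S N U X T H k1 k1).card : ℝ) ≤ 540 * (N / T) * (N / T + N * (5 / Real.sqrt H)) :=
      (hNQ2 N U X T H k1 k1 hN hU hX hk1 hk1 hH hHT hTN).1
    have b2 : ∑ k2 ∈ U.erase k1, ((QDC_S N U X T H k1 k2).card : ℝ) ≤
        ∑ k2 ∈ U.erase k1, (540 * (N / T) * (N / T) + 540 * (N / T) * (54 * q) * (1 / |(k1 : ℝ) - k2|)) := by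
      refine Finset.sum_le_sum fun k2 hk2 => ?_
      obtain ⟨hne, hk⟩ := Finset.mem_erase.1 hk2
      have h1 : ((QDC_S N U X T H k1 k2).card : ℝ) ≤ 540 * (N / T) * (N / T + N * (54 * N / (H * |(k1 : ℝ) - k2|))) :=
        (hNQ2 N U X T H k1 k2 hN hU hX hk1 hk hH hHT hTN).2 (Ne.symm hne)
      refine h1.trans_eq ?_
      have h2 : (k1 : ℝ) - k2 ≠ 0 := by
        rw [sub_ne_zero]
        exact_mod_cast Ne.symm hne
      have h3 : |(k1 : ℝ) - k2| ≠ 0 := abs_ne_zero.2 h2
      rw [hq]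
      field_simp
    have b3 : ∑ k2 ∈ U.erase k1, (540 * (N / T) * (N / T) + 540 * (N / T) * (54 * q) * (1 / |(k1 : ℝ) - k2|)) ≤
        (U.card - 1) * (540 * (N / T) * (N / T)) + 540 * (N / T) * (54 * q) * (2 * (3 * l)) := by
      rw [Finset.sum_add_distrib, Finset.sum_const, nsmul_eq_mul, ← Finset.mul_sum, Finset.card_erase_of_mem hk1,
        Nat.cast_sub (Finset.card_pos.2 ⟨k1, hk1⟩), Nat.cast_one]
      have h1 := QDC_harm N hN U hU k1 (hU k1 hk1)
      have h2 : ∑ k2 ∈ U.erase k1, 1 / |(k1 : ℝ) - k2| ≤ 2 * (3 * l) := h1.trans (by linarith)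
      have h3 : (0 : ℝ) ≤ 540 * (N / T) * (54 * q) := by positivity
      have h4 := mul_le_mul_of_nonneg_left h2 h3
      linarith
    have e1 : (U.card : ℝ) * (N / T) ≤ 5 * q := by
      calc (U.card : ℝ) * (N / T) ≤ (5 * N) * (N / H) := mul_le_mul hcU hNT (by positivity) (by positivity)
        _ = 5 * q := by
            rw [hq]
            ring
    have e2 : N * (5 / Real.sqrt H) ≤ 20 * q := by
      have h1 : N * (5 / Real.sqrt H) = 5 * (N / H) * Real.sqrt H := by
        have h2 : H = Real.sqrt H * Real.sqrt H := (Real.mul_self_sqrt hH0.le).symm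
        have h3 : Real.sqrt H ≠ 0 := hs0.ne'
        calc N * (5 / Real.sqrt H) = 5 * (N / (Real.sqrt H * Real.sqrt H)) * Real.sqrt H := by
              field_simp
          _ = _ := by rw [← h2]
      rw [h1]
      calc 5 * (N / H) * Real.sqrt H ≤ 5 * (N / H) * (4 * N) := mul_le_mul_of_nonneg_left hsH (by positivity)
        _ = 20 * q := by
            rw [hq]
            ring
    have hql : q ≤ q * l := le_mul_of_one_le_right hq0.le hl1
    have hNT0 : (0 : ℝ) < N / T := by positivity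
    calc ((QDC_S N U X T H k1 k1).card : ℝ) + ∑ k2 ∈ U.erase k1, ((QDC_S N U X T H k1 k2).card : ℝ)
        ≤ 540 * (N / T) * (N / T + N * (5 / Real.sqrt H)) +
          ((U.card - 1) * (540 * (N / T) * (N / T)) + 540 * (N / T) * (54 * q) * (2 * (3 * l))) :=
          add_le_add b1 (b2.trans b3)
      _ = 540 * (N / T) * (U.card * (N / T) + N * (5 / Real.sqrt H) + 324 * (q * l)) := by ring
      _ ≤ 540 * (N / T) * (5 * (q * l) + 20 * (q * l) + 324 * (q * l)) := by
          refine mul_le_mul_of_nonneg_left ?_ (by positivity)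
          have h1 : (U.card : ℝ) * (N / T) ≤ 5 * (q * l) := e1.trans (by linarith)
          have h2 : N * (5 / Real.sqrt H) ≤ 20 * (q * l) := e2.trans (by linarith)
          linarith
      _ = 188460 * (N / T) * q * l := by ring
  calc ∑ k1 ∈ U, ∑ k2 ∈ U, ((QDC_S N U X T H k1 k2).card : ℝ) ≤ ∑ _k1 ∈ U, 188460 * (N / T) * q * l :=
        Finset.sum_le_sum key
    _ = 188460 * (N / T) * U.card * q * l := by
        rw [Finset.sum_const, nsmul_eq_mul]
        ring

end

end Pool.Agent.T1
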